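import Pool.Agent.H352R5.HL.Cor

/-!
# Extreme points of the unit ball of Hardy–Lorentz spaces

`Ψ` is a non-decreasing concave function on `[0, 2π]` with `Ψ 0 = 0`, not identically zero.
`H(Λ(Ψ))` is the space of the functions analytic in the unit disc with
`sup_{0<r<1} ‖F(r e^{it})‖_{Λ(Ψ)} < ∞`. The theorem characterises the extreme points of its closed
unit ball.

* For every `Ψ`: `F` is extreme if and only if it has norm one and every admissible perturbation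
  is a real multiple of `F`. Admissibility consists of pointwise conditions on the boundary values,
  given by the levels of `|f|` of measure `s`, for the points `s` where `Ψ` bends.
* If `Ψ` is strictly increasing and `f = I O` is the factorisation of the boundary function into its
  inner and outer factors: `F` is extreme if and only if it has norm one and there is no nonconstant
  bounded real `k` with `k I ∈ H^∞` such that `k |f|` is Lipschitz with respect to `|f|` across the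
  levels of `|f|` of measure `s`, for all bending points `s` of `Ψ`.
* If `Ψ` is strictly concave, the last condition says that `k |f| = φ(|f|)` for a Lipschitz
  function `φ`.
-/

namespace Pool.Agent.Results.MP_b33f11_an.ExtremePoints

open MeasureTheory Set Filter Topology
open scoped ENNReal NNReal Real

/-! ### The Hardy–Lorentz space -/

/-- `Ψ` is a weight: non-decreasing and concave on `[0, 2π]`, with `Ψ 0 = 0`, not identically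
zero. -/
def IsWeight (Ψ : ℝ → ℝ) : Prop :=
  Ψ 0 = 0 ∧ MonotoneOn Ψ (Icc 0 (2 * π)) ∧ ConcaveOn ℝ (Icc 0 (2 * π)) Ψ ∧ 0 < Ψ (2 * π)

/-- Lebesgue measure on `(0, 2π]`; the circle is parametrised by `t ↦ e^{it}`. -/
noncomputable def leb : Measure ℝ := volume.restrict (Ioc 0 (2 * π))

/-- The non-increasing rearrangement `x^*` of `|x|`. -/
noncomputable def rearr (x : ℝ → ℝ) (s : ℝ) : ℝ≥0∞ :=
  sInf {τ : ℝ≥0∞ | leb {t | τ < ENNReal.ofReal |x t|} ≤ ENNReal.ofReal s}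

/-- The extension of `Ψ` by `0` to `(-∞, 0]` and by `Ψ (2π)` to `[2π, ∞)`. -/
noncomputable def psiExt (Ψ : ℝ → ℝ) (t : ℝ) : ℝ := if t ≤ 0 then 0 else Ψ (min t (2 * π))

open Classical in
/-- The Lebesgue–Stieltjes measure `dΨ`; its mass at `0` is the jump `Ψ(0+)`. -/
noncomputable def dPsi (Ψ : ℝ → ℝ) : Measure ℝ :=
  if h : Monotone (psiExt Ψ) then h.stieltjesFunction.measure else 0

/-- The norm `∫_0^{2π} x^* dΨ` of the Lorentz space `Λ(Ψ)`. -/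
noncomputable def lorentzNorm (Ψ : ℝ → ℝ) (x : ℝ → ℝ) : ℝ≥0∞ :=
  ∫⁻ s in Icc 0 (2 * π), rearr x s ∂dPsi Ψ

/-- The norm of `H(Λ(Ψ))`: the supremum over `0 < r < 1` of the norm of `|F(r e^{it})|`. -/
noncomputable def hardyNorm (Ψ : ℝ → ℝ) (F : ℂ → ℂ) : ℝ≥0∞ :=
  ⨆ r ∈ Ioo (0 : ℝ) 1, lorentzNorm Ψ (fun t => ‖F ((r : ℂ) * Complex.exp (Complex.I * t))‖)

/-- `F` belongs to `H(Λ(Ψ))` (only its values in the unit disc matter). -/
def InHardyLorentz (Ψ : ℝ → ℝ) (F : ℂ → ℂ) : Prop :=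
  DifferentiableOn ℂ F (Metric.ball 0 1) ∧ hardyNorm Ψ F < ∞

/-- `F` is an extreme point of the closed unit ball of `H(Λ(Ψ))`: it is in the ball and it is not
the midpoint of two distinct points of the ball. -/
def IsExtremePoint (Ψ : ℝ → ℝ) (F : ℂ → ℂ) : Prop :=
  (InHardyLorentz Ψ F ∧ hardyNorm Ψ F ≤ 1) ∧
  ∀ G₁ G₂ : ℂ → ℂ, InHardyLorentz Ψ G₁ ∧ hardyNorm Ψ G₁ ≤ 1 →
    InHardyLorentz Ψ G₂ ∧ hardyNorm Ψ G₂ ≤ 1 →
    (∀ z ∈ Metric.ball (0 : ℂ) 1, F z = (G₁ z + G₂ z) / 2) →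
    ∀ z ∈ Metric.ball (0 : ℂ) 1, G₁ z = G₂ z

/-! ### Boundary functions, inner and outer functions -/

/-- `f` is the boundary function of `F`: `F(r e^{it}) → f(t)` in `L¹` as `r → 1`. -/
def IsBoundary (F : ℂ → ℂ) (f : ℝ → ℂ) : Prop :=
  Measurable f ∧ Tendsto (fun r : ℝ =>
    ∫⁻ t, ‖F ((r : ℂ) * Complex.exp (Complex.I * t)) - f t‖ₑ ∂leb) (𝓝[<] 1) (𝓝 0)

/-- The Fourier coefficients of `f` of negative index vanish. -/
def NegVanish (f : ℝ → ℂ) : Prop :=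
  ∀ n : ℕ, ∫ t, f t * Complex.exp (Complex.I * ((n : ℂ) + 1) * t) ∂leb = 0

/-- Boundary functions of inner functions. -/
def IsInner (I : ℝ → ℂ) : Prop := Measurable I ∧ (∀ t, ‖I t‖ = 1) ∧ NegVanish I

/-- Boundary functions of outer functions in `H¹` (equality in Jensen's inequality
`|O(0)| ≤ exp ((1/2π) ∫ log |O|)`). -/
def IsOuter (O : ℝ → ℂ) : Prop :=
  Measurable O ∧ Integrable O leb ∧ NegVanish O ∧ Integrable (fun t => Real.log ‖O t‖) leb ∧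
  ‖∫ t, O t ∂leb‖ = 2 * π * Real.exp ((1 / (2 * π)) * ∫ t, Real.log ‖O t‖ ∂leb)

/-- `f = I O` with `I` inner and `O` outer. -/
def IsFactorisation (f I O : ℝ → ℂ) : Prop :=
  IsInner I ∧ IsOuter O ∧ ∀ᵐ t ∂leb, f t = I t * O t

/-! ### The weight -/

/-- `s` is a bending point: `0 < s < 2π` and `Ψ` is not affine in any neighbourhood of `s`. -/
def IsBend (Ψ : ℝ → ℝ) (s : ℝ) : Prop :=
  0 < s ∧ s < 2 * π ∧ ∀ ε > 0, ¬ ∃ a b : ℝ, ∀ t ∈ Icc 0 (2 * π), |t - s| < ε → Ψ t = a * t + b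

/-- `Ψ(0+)`. -/
noncomputable def jump (Ψ : ℝ → ℝ) : ℝ := sInf (Ψ '' Ioc 0 (2 * π))

/-- The infimum of the `s` with `Ψ s = Ψ (2π)`: the weight is constant from there on. -/
noncomputable def flatFrom (Ψ : ℝ → ℝ) : ℝ := sInf {s | s ∈ Icc 0 (2 * π) ∧ Ψ s = Ψ (2 * π)}

/-! ### The conditions -/

/-- `E` is a superlevel set of `u`. -/
def IsLevelSet (u : ℝ → ℝ) (E : Set ℝ) : Prop := ∃ τ : ℝ, E = {t | τ < u t} ∨ E = {t | τ ≤ u t}

/-- `M` is the essential supremum of `u`. -/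
def IsEssSup (u : ℝ → ℝ) (M : ℝ) : Prop :=
  (∀ᵐ t ∂leb, u t ≤ M) ∧ ∀ M', (∀ᵐ t ∂leb, u t ≤ M') → M ≤ M'

/-- `v` is Lipschitz with respect to `u` across the levels of `u` which belong to the bending points
of `Ψ`: for every bending point `s` there is a superlevel set `E` of `u` of measure `s` with
`|v t - v t'| ≤ C (u t - u t')` for almost all `t ∈ E`, `t' ∉ E`, and if `Ψ(0+) > 0`, then
`|v - c| ≤ C (ess sup u - u)` for some constant `c`. -/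
def LipAcross (Ψ : ℝ → ℝ) (C : ℝ) (u v : ℝ → ℝ) : Prop :=
  (∀ s, IsBend Ψ s → ∃ E, IsLevelSet u E ∧ leb E = ENNReal.ofReal s ∧
    ∀ᵐ t ∂leb, t ∈ E → ∀ᵐ t' ∂leb, t' ∉ E → |v t - v t'| ≤ C * (u t - u t')) ∧
  (0 < jump Ψ → ∃ M c : ℝ, IsEssSup u M ∧ ∀ᵐ t ∂leb, |v t - c| ≤ C * (M - u t))

/-- `g` is an admissible perturbation of `f`: there are a level `l ≤ ess sup |f|` with
`|{|f| > l}| = flatFrom Ψ`, a real function `k` and a constant `C` such that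
* almost everywhere on `{|f| > l}`: `g = k f` and `|k f| ≤ C (|f| - l)`;
* almost everywhere on `{|f| ≤ l}`: `|f + g| ≤ l` and `|f - g| ≤ l`;
* for every bending point `s < flatFrom Ψ` there is a superlevel set `E` of `|f|` of measure `s`
  such that `|k |f| (t) - k |f| (t')| ≤ C (|f t| - |f t'|)` for almost all `t ∈ E`, `t' ∉ E` with
  `|f t'| > l`;
* if `Ψ(0+) > 0`, then `|k |f| - c| ≤ C (ess sup |f| - |f|)` on `{|f| > l}`, for some `c`. -/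
def IsAdmissible (Ψ : ℝ → ℝ) (f g : ℝ → ℂ) : Prop :=
  ∃ (k : ℝ → ℝ) (l C : ℝ), Measurable k ∧ 0 ≤ l ∧ 0 ≤ C ∧
    (∀ M, (∀ᵐ t ∂leb, ‖f t‖ ≤ M) → l ≤ M) ∧
    leb {t | l < ‖f t‖} = ENNReal.ofReal (flatFrom Ψ) ∧
    (∀ᵐ t ∂leb, l < ‖f t‖ → g t = (k t : ℂ) * f t ∧ |k t * ‖f t‖| ≤ C * (‖f t‖ - l)) ∧
    (∀ᵐ t ∂leb, ‖f t‖ ≤ l → ‖f t + g t‖ ≤ l ∧ ‖f t - g t‖ ≤ l) ∧
    (∀ s, IsBend Ψ s → s < flatFrom Ψ → ∃ E, IsLevelSet (fun t => ‖f t‖) E ∧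
      leb E = ENNReal.ofReal s ∧ ∀ᵐ t ∂leb, t ∈ E → ∀ᵐ t' ∂leb, t' ∉ E → l < ‖f t'‖ →
        |k t * ‖f t‖ - k t' * ‖f t'‖| ≤ C * (‖f t‖ - ‖f t'‖)) ∧
    (0 < jump Ψ → ∃ M c : ℝ, IsEssSup (fun t => ‖f t‖) M ∧
      ∀ᵐ t ∂leb, l < ‖f t‖ → |k t * ‖f t‖ - c| ≤ C * (M - ‖f t‖))

/-! ### Comparison with the definitions of the library -/

open Pool.Agent.H352R5.HL in
theorem toWt {Ψ : ℝ → ℝ} (h : IsWeight Ψ) : IsWt Ψ := ⟨h.1, h.2.1, h.2.2.1⟩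

open Pool.Agent.H352R5.HL in
theorem dPsi_eq {Ψ : ℝ → ℝ} (h : IsWeight Ψ) : dPsi Ψ = (toWt h).dPsi := by
  unfold dPsi
  exact dif_pos (toWt h).psiExt_mono

open Pool.Agent.H352R5.HL in
theorem lorentzNorm_eq {Ψ : ℝ → ℝ} (h : IsWeight Ψ) (x : ℝ → ℝ) :
    lorentzNorm Ψ x = (toWt h).norm x := by
  unfold lorentzNorm
  rw [dPsi_eq h]
  rfl

open Pool.Agent.H352R5.HL in
theorem hardyNorm_eq {Ψ : ℝ → ℝ} (h : IsWeight Ψ) (F : ℂ → ℂ) :
    hardyNorm Ψ F = HN (toWt h) F := by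
  unfold hardyNorm HN
  refine iSup_congr fun r => iSup_congr fun _ => ?_
  rw [lorentzNorm_eq h]
  rfl

open Pool.Agent.H352R5.HL in
theorem inHardyLorentz_iff {Ψ : ℝ → ℝ} (h : IsWeight Ψ) (F : ℂ → ℂ) :
    InHardyLorentz Ψ F ↔ InHL (toWt h) F := by
  unfold InHardyLorentz InHL
  rw [hardyNorm_eq h]

open Pool.Agent.H352R5.HL in
theorem isExtremePoint_iff {Ψ : ℝ → ℝ} (h : IsWeight Ψ) (F : ℂ → ℂ) :
    IsExtremePoint Ψ F ↔ ExtrD (toWt h) F := by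
  unfold IsExtremePoint ExtrD
  simp only [hardyNorm_eq h, inHardyLorentz_iff h]

open Pool.Agent.H352R5.HL in
theorem isFactorisation_iff (f I O : ℝ → ℂ) : IsFactorisation f I O ↔ IsFact f I O := by
  constructor
  · rintro ⟨⟨h1, h2, h3⟩, ⟨h4, h5, h6, h7, h8⟩, h9⟩
    exact ⟨h1, h2, h3, ⟨h4, h5, h6, h7, h8⟩, h9⟩
  · rintro ⟨h1, h2, h3, ⟨h4, h5, h6, h7, h8⟩, h9⟩
    exact ⟨⟨h1, h2, h3⟩, ⟨h4, h5, h6, h7, h8⟩, h9⟩

open Pool.Agent.H352R5.HL in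
theorem lipAcross_iff (Ψ : ℝ → ℝ) (C : ℝ) (u v : ℝ → ℝ) : LipAcross Ψ C u v ↔ Lev Ψ C u v := by
  constructor
  · rintro ⟨h1, h2⟩
    refine ⟨h1, fun h3 => ?_⟩
    obtain ⟨M, c, ⟨h4, h5⟩, h6⟩ := h2 h3
    exact ⟨M, c, h4, h5, h6⟩
  · rintro ⟨h1, h2⟩
    refine ⟨h1, fun h3 => ?_⟩
    obtain ⟨M, c, h4, h5, h6⟩ := h2 h3
    exact ⟨M, c, ⟨h4, h5⟩, h6⟩

open Pool.Agent.H352R5.HL in
theorem isAdmissible_iff (Ψ : ℝ → ℝ) (f g : ℝ → ℂ) : IsAdmissible Ψ f g ↔ Pert Ψ f g := by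
  constructor
  · rintro ⟨k, l, C, h1, h2, h3, h4, h5, h6, h7, h8, h9⟩
    refine ⟨k, l, C, h1, h2, h3, h4, h5, h6, h7, h8, fun h10 => ?_⟩
    obtain ⟨M, c, ⟨h11, h12⟩, h13⟩ := h9 h10
    exact ⟨M, c, h11, h12, h13⟩
  · rintro ⟨k, l, C, h1, h2, h3, h4, h5, h6, h7, h8, h9⟩
    refine ⟨k, l, C, h1, h2, h3, h4, h5, h6, h7, h8, fun h10 => ?_⟩
    obtain ⟨M, c, h11, h12, h13⟩ := h9 h10
    exact ⟨M, c, ⟨h11, h12⟩, h13⟩

/-! ### The result -/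

/-- **Characterisation of the extreme points of the unit ball of `H(Λ(Ψ))`.** -/
theorem result (Ψ : ℝ → ℝ) (hΨ : IsWeight Ψ) (F : ℂ → ℂ) (hF : InHardyLorentz Ψ F) :
    (∃ f : ℝ → ℂ, IsBoundary F f) ∧
    ∀ f : ℝ → ℂ, IsBoundary F f →
      -- arbitrary weights
      (IsExtremePoint Ψ F ↔ hardyNorm Ψ F = 1 ∧
        ∀ (G : ℂ → ℂ) (g : ℝ → ℂ), InHardyLorentz Ψ G → IsBoundary G g → IsAdmissible Ψ f g →
          ∃ c : ℝ, ∀ z ∈ Metric.ball (0 : ℂ) 1, G z = (c : ℂ) * F z) ∧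
      -- the inner and the outer factor
      (hardyNorm Ψ F = 1 → ∃ I O : ℝ → ℂ, IsFactorisation f I O) ∧
      ∀ I O : ℝ → ℂ, IsFactorisation f I O →
        -- strictly increasing weights
        (StrictMonoOn Ψ (Icc 0 (2 * π)) →
          (IsExtremePoint Ψ F ↔ hardyNorm Ψ F = 1 ∧
            ∀ k : ℝ → ℝ, Measurable k → (∃ B : ℝ, ∀ t, |k t| ≤ B) →
              NegVanish (fun t => (k t : ℂ) * I t) →
              (∃ C : ℝ, LipAcross Ψ C (fun t => ‖f t‖) (fun t => k t * ‖f t‖)) →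
              ∃ c : ℝ, ∀ᵐ t ∂leb, k t = c)) ∧
        -- strictly concave weights
        (StrictConcaveOn ℝ (Icc 0 (2 * π)) Ψ →
          (IsExtremePoint Ψ F ↔ hardyNorm Ψ F = 1 ∧
            ∀ k : ℝ → ℝ, Measurable k → (∃ B : ℝ, ∀ t, |k t| ≤ B) →
              NegVanish (fun t => (k t : ℂ) * I t) →
              (∃ (φ : ℝ → ℝ) (C : ℝ), (∀ p q, |φ p - φ q| ≤ C * |p - q|) ∧
                ∀ᵐ t ∂leb, k t * ‖f t‖ = φ ‖f t‖) →
              ∃ c : ℝ, ∀ᵐ t ∂leb, k t = c)) := by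
  have hmain := Pool.Agent.H352R5.HL.main (toWt hΨ) hΨ.2.2.2 ((inHardyLorentz_iff hΨ F).1 hF)
  obtain ⟨⟨f₀, hf₀, hB₀⟩, hall⟩ := hmain
  refine ⟨⟨f₀, hf₀, hB₀⟩, ?_⟩
  rintro f ⟨hf, hB⟩
  obtain ⟨h1, h2, h3⟩ := hall f hf hB
  simp only [isExtremePoint_iff hΨ, hardyNorm_eq hΨ, inHardyLorentz_iff hΨ, isFactorisation_iff,
    lipAcross_iff, isAdmissible_iff]
  refine ⟨?_, h1, h3⟩
  rw [h2]
  constructor
  · rintro ⟨h4, h5⟩
    exact ⟨h4, fun G g hG hg hP => h5 G g hG hg.1 hg.2 hP⟩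
  · rintro ⟨h4, h5⟩
    exact ⟨h4, fun G g hG hg hBg hP => h5 G g hG ⟨hg, hBg⟩ hP⟩

end Pool.Agent.Results.MP_b33f11_an.ExtremePoints
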